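import Mathlib

set_option autoImplicit false

/-!
# Many sums of `k`-th powers with prescribed classes (diminishing ranges)
-/

namespace Pool.Agent.R77.WC

open Finset

/-- `1 - 1 / k` -/
noncomputable def th (k : ℕ) : ℝ := 1 - 1 / (k : ℝ)

lemma th_nonneg {k : ℕ} (hk : 1 ≤ k) : 0 ≤ th k := by
  unfold th
  have h1 : (1 : ℝ) ≤ k := by exact_mod_cast hk
  have h2 : 1 / (k : ℝ) ≤ 1 := by
    rw [div_le_one (by linarith)]
    exact h1
  linarith

lemma th_le_one (k : ℕ) : th k ≤ 1 := by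
  unfold th
  have : (0 : ℝ) ≤ 1 / (k : ℝ) := by positivity
  linarith

lemma th_pow_le_one {k : ℕ} (hk : 1 ≤ k) (s : ℕ) : th k ^ s ≤ 1 :=
  pow_le_one₀ (th_nonneg hk) (th_le_one k)

lemma th_pow_nonneg {k : ℕ} (hk : 1 ≤ k) (s : ℕ) : 0 ≤ th k ^ s :=
  pow_nonneg (th_nonneg hk) s

lemma mul_th {k : ℕ} (hk : 1 ≤ k) : (k : ℝ) * th k = k - 1 := by
  unfold th
  have h1 : (k : ℝ) ≠ 0 := by
    have : (1 : ℝ) ≤ k := by exact_mod_cast hk
    linarith
  field_simp

/-- `σ` is a sum of `s` positive `k`-th powers with bases in the classes `ρ` modulo `q` -/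
def IsSum (k q s : ℕ) (ρ : Fin s → ℕ) (σ : ℕ) : Prop :=
  ∃ x : Fin s → ℕ, (∀ i, 0 < x i) ∧ (∀ i, x i ≡ ρ i [MOD q]) ∧ ∑ i, x i ^ k = σ

lemma exists_X {k : ℕ} (hk : 1 ≤ k) {M n : ℕ} (hn : 2 * 4 ^ k * (M + 1) ^ k < n) :
    ∃ X : ℕ, M < X ∧ 2 * (2 * X) ^ k ≤ n ∧ n ≤ 2 * 4 ^ k * X ^ k := by
  classical
  obtain ⟨X, hX⟩ : ∃ X, X = Nat.findGreatest (fun X => 2 * (2 * X) ^ k ≤ n) n := ⟨_, rfl⟩
  have h0 : 2 * (2 * (M + 1)) ^ k ≤ n := by
    have h1 : (2 * (M + 1)) ^ k ≤ 4 ^ k * (M + 1) ^ k := by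
      rw [mul_pow]
      exact Nat.mul_le_mul_right _ (Nat.pow_le_pow_left (by norm_num) k)
    nlinarith
  have hMn : M + 1 ≤ n := by
    have h1 : M + 1 ≤ (M + 1) ^ k := Nat.le_self_pow (by omega) _
    have h2 : 1 ≤ 4 ^ k := Nat.one_le_pow _ _ (by norm_num)
    nlinarith
  have h2 : 2 * (2 * X) ^ k ≤ n := by
    rw [hX]
    exact Nat.findGreatest_spec (P := fun X => 2 * (2 * X) ^ k ≤ n) hMn h0
  have h3 : M + 1 ≤ X := by
    rw [hX]
    exact Nat.le_findGreatest (P := fun X => 2 * (2 * X) ^ k ≤ n) hMn h0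
  refine ⟨X, by omega, h2, ?_⟩
  have h4 : ¬ 2 * (2 * (X + 1)) ^ k ≤ n := by
    intro h5
    have h6 : X + 1 ≤ n := by
      have h7 : X + 1 ≤ (2 * (X + 1)) ^ k :=
        le_trans (by omega) (Nat.le_self_pow (by omega) (2 * (X + 1)))
      omega
    have h8 := Nat.le_findGreatest (P := fun X => 2 * (2 * X) ^ k ≤ n) h6 h5
    rw [← hX] at h8
    omega
  have h5 : (2 * (X + 1)) ^ k ≤ 4 ^ k * X ^ k := by
    rw [← mul_pow]
    exact Nat.pow_le_pow_left (by omega) k
  have h6 : 2 * 4 ^ k * X ^ k = 2 * (4 ^ k * X ^ k) := by ring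
  omega

lemma succ_pow_ge (x j : ℕ) : x ^ (j + 1) + (j + 1) * x ^ j ≤ (x + 1) ^ (j + 1) := by
  induction j with
  | zero => simp
  | succ j ih =>
    calc x ^ (j + 1 + 1) + (j + 1 + 1) * x ^ (j + 1)
        ≤ (x ^ (j + 1) + (j + 1) * x ^ j) * (x + 1) := by
          have : (x ^ (j + 1) + (j + 1) * x ^ j) * (x + 1) =
              x ^ (j + 1 + 1) + (j + 1 + 1) * x ^ (j + 1) + (j + 1) * x ^ j := by ring
          rw [this]
          exact Nat.le_add_right _ _
      _ ≤ (x + 1) ^ (j + 1) * (x + 1) := Nat.mul_le_mul_right _ ih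
      _ = (x + 1) ^ (j + 1 + 1) := by ring

/-- the representative in the `t`-th block -/
def xx (q a T t : ℕ) : ℕ := q * (T + 1 + t) + a

lemma gap {k q a T t t' m f : ℕ} (hk : 1 ≤ k) (hq : 1 ≤ q) (hT : m < (q * (T + 1)) ^ (k - 1) * k)
    (hf : f ≤ m) (htt : t < t') : xx q a T t ^ k + f < xx q a T t' ^ k := by
  have h1 : xx q a T t + 1 ≤ xx q a T t' := by
    unfold xx
    have : q * (T + 1 + t) + q ≤ q * (T + 1 + t') := by
      have h2 : T + 1 + t + 1 ≤ T + 1 + t' := by omega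
      calc q * (T + 1 + t) + q = q * (T + 1 + t + 1) := by ring
        _ ≤ q * (T + 1 + t') := Nat.mul_le_mul_left _ h2
    omega
  have h2 : (xx q a T t + 1) ^ k ≤ xx q a T t' ^ k := Nat.pow_le_pow_left h1 k
  have h3 : xx q a T t ^ k + k * xx q a T t ^ (k - 1) ≤ (xx q a T t + 1) ^ k := by
    obtain ⟨j, rfl⟩ : ∃ j, k = j + 1 := ⟨k - 1, by omega⟩
    have h4 := succ_pow_ge (xx q a T t) j
    simpa using h4
  have h4 : (q * (T + 1)) ^ (k - 1) ≤ xx q a T t ^ (k - 1) := by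
    apply Nat.pow_le_pow_left
    unfold xx
    have : q * (T + 1) ≤ q * (T + 1 + t) := Nat.mul_le_mul_left _ (by omega)
    omega
  have h5 : m < k * xx q a T t ^ (k - 1) := by
    calc m < (q * (T + 1)) ^ (k - 1) * k := hT
      _ ≤ xx q a T t ^ (k - 1) * k := Nat.mul_le_mul_right _ h4
      _ = k * xx q a T t ^ (k - 1) := by ring
  omega

/-- **Diminishing ranges**, uniformly in the modulus: for all `q ≥ 1`, `n ≥ A q ^ A` and all classes
`ρ` there are at least `c q ^ (-s) n ^ (1 - (1 - 1/k) ^ s)` numbers up to `n` which are sums of `s`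
positive `k`-th powers with bases in the classes `ρ` modulo `q`. -/
theorem many {k : ℕ} (hk : 2 ≤ k) (s : ℕ) :
    ∃ c : ℝ, 0 < c ∧ ∃ A : ℕ, ∀ q : ℕ, 1 ≤ q → ∀ n : ℕ, A * q ^ A ≤ n → ∀ ρ : Fin s → ℕ,
      ∃ F : Finset ℕ, (∀ σ ∈ F, σ ≤ n ∧ IsSum k q s ρ σ) ∧
        c / (q : ℝ) ^ s * (n : ℝ) ^ (1 - th k ^ s) ≤ (F.card : ℝ) := by
  have hk1 : 1 ≤ k := by omega
  induction s with
  | zero =>
    refine ⟨1, one_pos, 0, fun q _ n _ ρ => ⟨{0}, ?_, ?_⟩⟩
    · intro σ hσ
      rw [mem_singleton] at hσ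
      subst hσ
      exact ⟨Nat.zero_le _, Fin.elim0, fun i => i.elim0, fun i => i.elim0, by simp⟩
    · simp
  | succ s ih =>
    obtain ⟨c, hc, A, hN⟩ := ih
    obtain ⟨e, he⟩ : ∃ e : ℝ, e = 1 - th k ^ (s + 1) := ⟨_, rfl⟩
    have he0 : 0 ≤ e := by rw [he]; linarith [th_pow_le_one hk1 (s + 1)]
    obtain ⟨K, hK⟩ : ∃ K : ℝ, K = 2 * 4 ^ k := ⟨_, rfl⟩
    have hK0 : 0 < K := by rw [hK]; positivity
    refine ⟨c / 2 * (1 / K) ^ e, by positivity,
      2 * 4 ^ k * (A + 5) ^ k + (A + 1) * k + 1, fun q hq n hn ρ => ?_⟩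
    have hnn : 2 * 4 ^ k * (A * q ^ A + 4 * q + 1) ^ k < n := by
      have h1 : A * q ^ A + 4 * q + 1 ≤ (A + 5) * q ^ (A + 1) := by
        have h2 : q ^ A ≤ q ^ (A + 1) := Nat.pow_le_pow_right hq (by omega)
        have h3 : q ≤ q ^ (A + 1) := Nat.le_self_pow (by omega) _
        have h4 : A * q ^ A ≤ A * q ^ (A + 1) := Nat.mul_le_mul_left _ h2
        have h5 : (A + 5) * q ^ (A + 1) = A * q ^ (A + 1) + 5 * q ^ (A + 1) := by ring
        omega
      have h2 : (A * q ^ A + 4 * q + 1) ^ k ≤ (A + 5) ^ k * q ^ ((A + 1) * k) := by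
        calc (A * q ^ A + 4 * q + 1) ^ k ≤ ((A + 5) * q ^ (A + 1)) ^ k :=
              Nat.pow_le_pow_left h1 k
          _ = (A + 5) ^ k * q ^ ((A + 1) * k) := by rw [mul_pow, ← pow_mul]
      have h3 : q ^ ((A + 1) * k) ≤ q ^ (2 * 4 ^ k * (A + 5) ^ k + (A + 1) * k + 1) :=
        Nat.pow_le_pow_right hq (by omega)
      have h4 : 0 < q ^ ((A + 1) * k) := pow_pos hq _
      calc 2 * 4 ^ k * (A * q ^ A + 4 * q + 1) ^ k
          ≤ 2 * 4 ^ k * ((A + 5) ^ k * q ^ ((A + 1) * k)) := Nat.mul_le_mul_left _ h2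
        _ = (2 * 4 ^ k * (A + 5) ^ k) * q ^ ((A + 1) * k) := by ring
        _ < (2 * 4 ^ k * (A + 5) ^ k + (A + 1) * k + 1) * q ^ ((A + 1) * k) :=
            Nat.mul_lt_mul_of_pos_right (by omega) h4
        _ ≤ (2 * 4 ^ k * (A + 5) ^ k + (A + 1) * k + 1) *
              q ^ (2 * 4 ^ k * (A + 5) ^ k + (A + 1) * k + 1) := Nat.mul_le_mul_left _ h3
        _ ≤ n := hn
    obtain ⟨X, hX1, hX2, hX3⟩ := exists_X hk1 (M := A * q ^ A + 4 * q) (n := n) hnn
    obtain ⟨m, hm⟩ : ∃ m, m = X ^ (k - 1) := ⟨_, rfl⟩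
    have hXm : X ≤ m := by rw [hm]; exact Nat.le_self_pow (by omega) _
    obtain ⟨F, hF1, hF2⟩ := hN q hq m (by omega) (fun i => ρ i.succ)
    obtain ⟨a, ha⟩ : ∃ a, a = ρ 0 % q := ⟨_, rfl⟩
    have haq : a < q := by rw [ha]; exact Nat.mod_lt _ hq
    obtain ⟨T, hT⟩ : ∃ T, T = X / q := ⟨_, rfl⟩
    have hTX : q * T ≤ X := by rw [hT]; exact Nat.mul_div_le _ _
    have hTX2 : X < q * (T + 1) := by
      have := Nat.lt_mul_div_succ X (show 0 < q by omega)
      rw [hT]
      exact this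
    have hT4 : 4 ≤ T := by
      by_contra hcon
      push Not at hcon
      have : q * (T + 1) ≤ q * 4 := Nat.mul_le_mul_left _ (by omega)
      omega
    have hmT : m < (q * (T + 1)) ^ (k - 1) * k := by
      have h1 : m ≤ (q * (T + 1)) ^ (k - 1) := by
        rw [hm]
        exact Nat.pow_le_pow_left hTX2.le _
      have h2 : 0 < m := by omega
      nlinarith
    have hgap : ∀ t t' f f' : ℕ, f ≤ m → f' ≤ m → xx q a T t ^ k + f = xx q a T t' ^ k + f' →
        t = t' ∧ f = f' := by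
      intro t t' f f' hf hf' h
      rcases lt_trichotomy t t' with h1 | h1 | h1
      · have := gap (a := a) hk1 hq hmT hf h1
        omega
      · subst h1
        exact ⟨rfl, by omega⟩
      · have := gap (a := a) hk1 hq hmT hf' h1
        omega
    refine ⟨((range (T - 1)) ×ˢ F).image (fun p => xx q a T p.1 ^ k + p.2), ?_, ?_⟩
    · intro σ hσ
      rw [mem_image] at hσ
      obtain ⟨⟨t, f⟩, hp, rfl⟩ := hσ
      rw [mem_product, mem_range] at hp
      obtain ⟨ht, hf⟩ := hp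
      simp only at ht hf
      obtain ⟨hfm, x, hx1, hx2, hx3⟩ := hF1 f hf
      constructor
      · have h1 : xx q a T t ≤ 2 * X := by
          unfold xx
          have h2 : q * (T + 1 + t) + q ≤ q * (2 * T) := by
            calc q * (T + 1 + t) + q = q * (T + 1 + t + 1) := by ring
              _ ≤ q * (2 * T) := Nat.mul_le_mul_left _ (by omega)
          have h3 : q * (2 * T) = 2 * (q * T) := by ring
          omega
        have h2 : xx q a T t ^ k ≤ (2 * X) ^ k := Nat.pow_le_pow_left h1 k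
        have h3 : m ≤ (2 * X) ^ k := by
          rw [hm]
          calc X ^ (k - 1) ≤ X ^ k := Nat.pow_le_pow_right (by omega) (by omega)
            _ ≤ (2 * X) ^ k := Nat.pow_le_pow_left (by omega) k
        show xx q a T t ^ k + f ≤ n
        omega
      · refine ⟨Fin.cons (xx q a T t) x, ?_, ?_, ?_⟩
        · intro i
          refine Fin.cases ?_ (fun i => ?_) i
          · simp only [Fin.cons_zero]
            unfold xx
            have : 0 < q * (T + 1 + t) := Nat.mul_pos hq (by omega)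
            omega
          · simp only [Fin.cons_succ]
            exact hx1 i
        · intro i
          refine Fin.cases ?_ (fun i => ?_) i
          · simp only [Fin.cons_zero]
            unfold xx
            rw [ha]
            have h1 : q * (T + 1 + t) + ρ 0 % q ≡ 0 + ρ 0 [MOD q] :=
              Nat.ModEq.add ((Nat.modEq_zero_iff_dvd).2 (Dvd.intro _ rfl)) (Nat.mod_modEq _ _)
            simpa using h1
          · simp only [Fin.cons_succ]
            exact hx2 i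
        · rw [Fin.sum_univ_succ]
          simp only [Fin.cons_zero, Fin.cons_succ]
          rw [hx3]
    · rw [card_image_of_injOn, card_product, card_range]
      · -- the count
        have hX0 : (0 : ℝ) < X := by
          have : 0 < X := by omega
          exact_mod_cast this
        have hq0 : (0 : ℝ) < q := by exact_mod_cast hq
        have h1 : (X : ℝ) / (2 * q) ≤ ((T - 1 : ℕ) : ℝ) := by
          rw [Nat.cast_sub (by omega), div_le_iff₀ (by positivity)]
          have h2 : (X : ℝ) ≤ q * (T + 1) := by exact_mod_cast hTX2.le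
          have h3 : (4 : ℝ) ≤ T := by exact_mod_cast hT4
          push_cast
          nlinarith
        have h2 : ((m : ℕ) : ℝ) ^ (1 - th k ^ s) = ((X : ℝ) ^ k) ^ e / X := by
          have h3 : ((m : ℕ) : ℝ) = (X : ℝ) ^ ((k : ℝ) - 1) := by
            rw [hm, Nat.cast_pow, ← Real.rpow_natCast, Nat.cast_sub hk1, Nat.cast_one]
          have h4 : ((X : ℝ) ^ k) ^ e = (X : ℝ) ^ ((k : ℝ) * e) := by
            rw [← Real.rpow_natCast, ← Real.rpow_mul hX0.le]
          have h5 : (X : ℝ) ^ ((k : ℝ) * e) / X = (X : ℝ) ^ ((k : ℝ) * e - 1) := by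
            rw [Real.rpow_sub_one hX0.ne']
          rw [h3, h4, h5, ← Real.rpow_mul hX0.le]
          congr 1
          rw [he, pow_succ]
          have h6 := mul_th hk1
          calc ((k : ℝ) - 1) * (1 - th k ^ s) = ((k : ℝ) - 1) - ((k : ℝ) - 1) * th k ^ s := by ring
            _ = ((k : ℝ) - 1) - (k * th k) * th k ^ s := by rw [h6]
            _ = k * (1 - th k ^ s * th k) - 1 := by ring
        have h3 : (1 / K) ^ e * (n : ℝ) ^ e ≤ ((X : ℝ) ^ k) ^ e := by
          rw [← Real.mul_rpow (by positivity) (by positivity)]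
          refine Real.rpow_le_rpow (by positivity) ?_ he0
          have h4 : (n : ℝ) ≤ K * (X : ℝ) ^ k := by
            rw [hK]
            exact_mod_cast hX3
          rw [div_mul_eq_mul_div, one_mul, div_le_iff₀ hK0]
          linarith
        push_cast
        rw [← he]
        calc c / 2 * (1 / K) ^ e / (q : ℝ) ^ (s + 1) * (n : ℝ) ^ e
            = c / (2 * (q : ℝ) ^ (s + 1)) * ((1 / K) ^ e * (n : ℝ) ^ e) := by
              field_simp
          _ ≤ c / (2 * (q : ℝ) ^ (s + 1)) * ((X : ℝ) ^ k) ^ e :=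
              mul_le_mul_of_nonneg_left h3 (by positivity)
          _ = (X / (2 * q)) * (c / (q : ℝ) ^ s * (((X : ℝ) ^ k) ^ e / X)) := by
              rw [pow_succ]
              field_simp
          _ = (X / (2 * q)) * (c / (q : ℝ) ^ s * ((m : ℕ) : ℝ) ^ (1 - th k ^ s)) := by rw [h2]
          _ ≤ ((T - 1 : ℕ) : ℝ) * (F.card : ℝ) :=
              mul_le_mul h1 hF2 (by positivity) (Nat.cast_nonneg _)
      · intro p hp p' hp' h
        rw [coe_product] at hp hp'
        obtain ⟨h1, h2⟩ := hgap p.1 p'.1 p.2 p'.2 (hF1 _ hp.2).1 (hF1 _ hp'.2).1 h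
        exact Prod.ext h1 h2

end Pool.Agent.R77.WC
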