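import Mathlib
import Pool.Agent.R77.WC.Count
import Pool.Agent.R500.WB.Local

set_option autoImplicit false

/-!
# Sums of `k`-th powers and one element of a sparse random set
-/

namespace Pool.Agent.R77.WC

open Finset MeasureTheory ProbabilityTheory Filter Topology
open Pool.Agent.R500.WB (Loc)

lemma exp_small {c ε : ℝ} (hc : 0 < c) (hε : 0 < ε) :
    ∀ᶠ n : ℕ in atTop, Real.exp (-(c * (n : ℝ) ^ ε)) ≤ 1 / (n : ℝ) ^ 2 := by
  have h1 := tendsto_rpow_mul_exp_neg_mul_atTop_nhds_zero (2 / ε) c hc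
  have h2 : Tendsto (fun n : ℕ => (n : ℝ) ^ ε) atTop atTop :=
    (tendsto_rpow_atTop hε).comp tendsto_natCast_atTop_atTop
  have h3 := (h1.comp h2).eventually (Iio_mem_nhds (show (0 : ℝ) < 1 by norm_num))
  filter_upwards [h3, eventually_gt_atTop 0] with n hn hn0
  simp only [Function.comp_apply] at hn
  have hn1 : (0 : ℝ) < n := by exact_mod_cast hn0
  have h4 : ((n : ℝ) ^ ε) ^ (2 / ε) = (n : ℝ) ^ 2 := by
    rw [← Real.rpow_mul hn1.le, mul_div_cancel₀ _ hε.ne']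
    exact_mod_cast Real.rpow_natCast (n : ℝ) 2
  rw [h4] at hn
  rw [le_div_iff₀ (by positivity), mul_comm]
  have h5 : -(c * (n : ℝ) ^ ε) = -c * (n : ℝ) ^ ε := by ring
  rw [h5]
  exact hn.le

/-- the events of `S` all fail -/
lemma prod_bound {Ω : Type*} [MeasurableSpace Ω] {μ : Measure Ω} [IsProbabilityMeasure μ]
    {A : ℕ → Set Ω} (hm : ∀ j, MeasurableSet (A j)) (hi : iIndepSet A μ) (S : Finset ℕ) {p : ℝ}
    (hp : ∀ j ∈ S, p ≤ μ.real (A j)) :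
    μ.real (⋂ j ∈ S, (A j)ᶜ) ≤ Real.exp (-(S.card * p)) := by
  have h1 : μ (⋂ j ∈ S, (A j)ᶜ) = ∏ j ∈ S, μ ((A j)ᶜ) := by
    have h2 : iIndep (fun j => MeasurableSpace.generateFrom {A j}) μ := hi
    refine h2.meas_biInter (fun j _ => ?_)
    exact (MeasurableSpace.measurableSet_generateFrom (Set.mem_singleton _)).compl
  rw [measureReal_def, h1, ENNReal.toReal_prod]
  have h3 : ∀ j ∈ S, (μ ((A j)ᶜ)).toReal ≤ Real.exp (-p) := by
    intro j hj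
    have h4 : (μ ((A j)ᶜ)).toReal = 1 - μ.real (A j) := by
      rw [← measureReal_def, measureReal_compl (hm j), probReal_univ]
    rw [h4]
    have h5 := Real.add_one_le_exp (-μ.real (A j))
    have h6 : Real.exp (-μ.real (A j)) ≤ Real.exp (-p) :=
      Real.exp_le_exp.2 (by linarith [hp j hj])
    linarith
  calc ∏ j ∈ S, (μ ((A j)ᶜ)).toReal ≤ ∏ _j ∈ S, Real.exp (-p) :=
        Finset.prod_le_prod (fun j _ => ENNReal.toReal_nonneg) h3
    _ = Real.exp (-(S.card * p)) := by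
        rw [Finset.prod_const, ← Real.exp_nat_mul]
        congr 1
        ring

/-- `Q` is a sequence of moduli, each one dividing the next, growing more slowly than any power. -/
structure Moduli (Q : ℕ → ℕ) : Prop where
  pos : ∀ m, 0 < Q m
  dvd : ∀ m m', m ≤ m' → Q m ∣ Q m'
  small : ∀ ε : ℝ, 0 < ε → ∀ᶠ m : ℕ in atTop, (Q m : ℝ) ≤ (m : ℝ) ^ ε

lemma Moduli.ev {Q : ℕ → ℕ} (hQ : Moduli Q) (A : ℕ) :
    ∀ᶠ n : ℕ in atTop, A * Q n ^ A ≤ n / 2 := by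
  have h1 : ∀ᶠ n : ℕ in atTop, (3 * (A : ℝ) + 1) ≤ (n : ℝ) ^ (1 / 2 : ℝ) :=
    ((tendsto_rpow_atTop (by norm_num : (0 : ℝ) < 1 / 2)).comp
      tendsto_natCast_atTop_atTop).eventually_ge_atTop _
  filter_upwards [hQ.small (1 / (2 * (A + 1))) (by positivity), h1, eventually_ge_atTop 2]
    with n hn1 hn2 hn3
  have hn0 : (1 : ℝ) ≤ n := by
    have : 1 ≤ n := by omega
    exact_mod_cast this
  have h2 : ((Q n : ℝ)) ^ A ≤ (n : ℝ) ^ (1 / 2 : ℝ) := by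
    calc ((Q n : ℝ)) ^ A ≤ ((n : ℝ) ^ (1 / (2 * ((A : ℝ) + 1)))) ^ A :=
          pow_le_pow_left₀ (Nat.cast_nonneg _) hn1 A
      _ = (n : ℝ) ^ (1 / (2 * ((A : ℝ) + 1)) * A) := by
          rw [← Real.rpow_natCast, ← Real.rpow_mul (by linarith)]
      _ ≤ (n : ℝ) ^ (1 / 2 : ℝ) := by
          refine Real.rpow_le_rpow_of_exponent_le hn0 ?_
          rw [div_mul_eq_mul_div, one_mul, div_le_div_iff₀ (by positivity) (by norm_num)]
          linarith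
  have h3 : (n : ℝ) ^ (1 / 2 : ℝ) * (n : ℝ) ^ (1 / 2 : ℝ) = n := by
    rw [← Real.rpow_add (by linarith)]
    norm_num
  have h4 : (3 * (A * Q n ^ A) : ℝ) ≤ n := by
    have h5 : (0 : ℝ) ≤ (n : ℝ) ^ (1 / 2 : ℝ) := by positivity
    have h6 : (0 : ℝ) ≤ A := Nat.cast_nonneg _
    nlinarith
  have h5 : 3 * (A * Q n ^ A) ≤ n := by exact_mod_cast h4
  omega

/-- Every large `n` is a sum of `s` positive `k`-th powers and an element `r ≥ n / 2` of `R`. -/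
def Suff (k : ℕ) (R : Set ℕ) (s : ℕ) : Prop :=
  ∀ᶠ n : ℕ in atTop, ∃ r ∈ R, n ≤ 2 * r ∧
    ∃ x : Fin s → ℕ, (∀ i, 0 < x i) ∧ ∑ i, x i ^ k + r = n

/-- **The core.** -/
theorem core {k s : ℕ} (hk : 2 ≤ k) (hloc : ∀ q, 1 ≤ q → Loc k s q) {Q : ℕ → ℕ} (hQ : Moduli Q)
    {η c : ℝ} (hη : th k ^ s < η) (hη1 : η ≤ 1) (hc : 0 < c) {Ω : Type*} [MeasurableSpace Ω]
    {μ : Measure Ω} [IsProbabilityMeasure μ] {R : Ω → Set ℕ}
    (hm : ∀ m, MeasurableSet {ω | m ∈ R ω}) (hi : iIndepSet (fun m : ℕ => {ω | m ∈ R ω}) μ)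
    (hp : ∀ m : ℕ, 0 < m → Q m ∣ m → c * (m : ℝ) ^ (η - 1) ≤ μ.real {ω | m ∈ R ω}) :
    ∀ᵐ ω ∂μ, Suff k (R ω) s := by
  have hk1 : 1 ≤ k := by omega
  obtain ⟨c₁, hc₁, A, hN⟩ := many hk s
  obtain ⟨e, he⟩ : ∃ e : ℝ, e = 1 - th k ^ s := ⟨_, rfl⟩
  have he0 : 0 ≤ e := by rw [he]; linarith [th_pow_le_one hk1 s]
  obtain ⟨δ, hδ⟩ : ∃ δ : ℝ, δ = (η - th k ^ s) / 2 := ⟨_, rfl⟩
  have hδ0 : 0 < δ := by rw [hδ]; linarith
  -- the good sets
  have hex : ∀ n : ℕ, ∃ F : Finset ℕ, A * Q n ^ A ≤ n / 2 →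
      (∀ σ ∈ F, σ ≤ n / 2 ∧ Q n ∣ n - σ ∧
        ∃ x : Fin s → ℕ, (∀ i, 0 < x i) ∧ ∑ i, x i ^ k = σ) ∧
      c₁ / (Q n : ℝ) ^ s * ((n / 2 : ℕ) : ℝ) ^ e ≤ (F.card : ℝ) := by
    intro n
    by_cases hn : A * Q n ^ A ≤ n / 2
    · obtain ⟨ρ, hρ⟩ := hloc (Q n) (hQ.pos n) n
      obtain ⟨F, hF1, hF2⟩ := hN (Q n) (hQ.pos n) (n / 2) hn ρ
      refine ⟨F, fun _ => ⟨fun σ hσ => ?_, ?_⟩⟩
      · obtain ⟨h1, x, hx1, hx2, hx3⟩ := hF1 σ hσ
        refine ⟨h1, ?_, x, hx1, hx3⟩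
        have h2 : σ ≡ n [MOD Q n] := by
          rw [← hx3]
          exact (Nat.ModEq.sum fun i _ => (hx2 i).pow k).trans hρ
        exact (Nat.modEq_iff_dvd' (by omega)).1 h2
      · rw [he]; exact hF2
    · exact ⟨∅, fun h => absurd h hn⟩
  choose F hF using hex
  obtain ⟨E, hE⟩ : ∃ E : ℕ → Set Ω, E = fun n =>
    ⋂ j ∈ (F n).image (fun σ => n - σ), ({ω | j ∈ R ω})ᶜ := ⟨_, rfl⟩
  obtain ⟨c₂, hc₂⟩ : ∃ c₂ : ℝ, c₂ = c * c₁ * (1 / 3) ^ e := ⟨_, rfl⟩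
  have hc₂0 : 0 < c₂ := by rw [hc₂]; positivity
  have hEb : ∀ᶠ n : ℕ in atTop, μ.real (E n) ≤ 1 / (n : ℝ) ^ 2 := by
    filter_upwards [exp_small hc₂0 hδ0, hQ.ev A, hQ.small (δ / (s + 1)) (by positivity),
      eventually_ge_atTop 2] with n hn1 hn2 hn4 hn5
    obtain ⟨h1, h2⟩ := hF n hn2
    have hn0 : (0 : ℝ) < n := by
      have : 0 < n := by omega
      exact_mod_cast this
    have hn01 : (1 : ℝ) ≤ n := by
      have : 1 ≤ n := by omega
      exact_mod_cast this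
    have h3 : ∀ j ∈ (F n).image (fun σ => n - σ), c * (n : ℝ) ^ (η - 1) ≤ μ.real {ω | j ∈ R ω} := by
      intro j hj
      rw [mem_image] at hj
      obtain ⟨σ, hσ, rfl⟩ := hj
      obtain ⟨h4, h5, -⟩ := h1 σ hσ
      have h6 : 0 < n - σ := by omega
      refine le_trans ?_ (hp (n - σ) h6 ((hQ.dvd _ _ (Nat.sub_le _ _)).trans h5))
      refine mul_le_mul_of_nonneg_left ?_ hc.le
      refine Real.rpow_le_rpow_of_nonpos ?_ ?_ (by linarith)
      · exact_mod_cast h6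
      · exact_mod_cast Nat.sub_le _ _
    have h4 := prod_bound (A := fun j => {ω | j ∈ R ω}) hm hi _ h3
    have h5 : ((F n).image (fun σ => n - σ)).card = (F n).card := by
      refine card_image_of_injOn ?_
      intro σ hσ σ' hσ' h
      have h6 := (h1 σ hσ).1
      have h7 := (h1 σ' hσ').1
      simp only at h
      omega
    rw [h5] at h4
    rw [hE]
    refine h4.trans (le_trans (Real.exp_le_exp.2 ?_) hn1)
    rw [neg_le_neg_iff]
    have h6 : (1 / 3 * (n : ℝ)) ^ e ≤ ((n / 2 : ℕ) : ℝ) ^ e := by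
      refine Real.rpow_le_rpow (by positivity) ?_ he0
      have h7 : n ≤ 3 * (n / 2) := by omega
      have h8 : (n : ℝ) ≤ 3 * ((n / 2 : ℕ) : ℝ) := by exact_mod_cast h7
      linarith
    rw [Real.mul_rpow (by norm_num) hn0.le] at h6
    have hQ0 : (0 : ℝ) < Q n := by exact_mod_cast hQ.pos n
    have hQs : ((Q n : ℝ)) ^ s ≤ (n : ℝ) ^ δ := by
      calc ((Q n : ℝ)) ^ s ≤ ((n : ℝ) ^ (δ / ((s : ℝ) + 1))) ^ s :=
            pow_le_pow_left₀ (Nat.cast_nonneg _) hn4 s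
        _ = (n : ℝ) ^ (δ / ((s : ℝ) + 1) * s) := by
            rw [← Real.rpow_natCast, ← Real.rpow_mul hn0.le]
        _ ≤ (n : ℝ) ^ δ := by
            refine Real.rpow_le_rpow_of_exponent_le hn01 ?_
            rw [div_mul_eq_mul_div, div_le_iff₀ (by positivity)]
            nlinarith
    have h7 : (n : ℝ) ^ δ = (n : ℝ) ^ e * (n : ℝ) ^ (η - 1) / (n : ℝ) ^ δ := by
      rw [← Real.rpow_add hn0, ← Real.rpow_sub hn0, he]
      congr 1
      rw [hδ]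
      ring
    have hnδ : (0 : ℝ) < (n : ℝ) ^ δ := by positivity
    rw [h7, hc₂]
    calc c * c₁ * (1 / 3) ^ e * ((n : ℝ) ^ e * (n : ℝ) ^ (η - 1) / (n : ℝ) ^ δ)
        = (c₁ / (n : ℝ) ^ δ * ((1 / 3) ^ e * (n : ℝ) ^ e)) * (c * (n : ℝ) ^ (η - 1)) := by
          field_simp
      _ ≤ (c₁ / (Q n : ℝ) ^ s * ((n / 2 : ℕ) : ℝ) ^ e) * (c * (n : ℝ) ^ (η - 1)) := by
          refine mul_le_mul_of_nonneg_right ?_ (by positivity)
          refine mul_le_mul ?_ h6 (by positivity) (by positivity)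
          exact div_le_div_of_nonneg_left hc₁.le (by positivity) hQs
      _ ≤ (F n).card * (c * (n : ℝ) ^ (η - 1)) := mul_le_mul_of_nonneg_right h2 (by positivity)
  have hsum : ∑' n, μ (E n) ≠ ⊤ := by
    have h1 : Summable (fun n => μ.real (E n)) := by
      have h2 : Summable (fun n : ℕ => 1 / (n : ℝ) ^ 2) :=
        Real.summable_one_div_nat_pow.2 (by norm_num)
      refine summable_of_isBigO_nat h2 ?_
      refine Asymptotics.IsBigO.of_bound 1 ?_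
      filter_upwards [hEb] with n hn1
      rw [Real.norm_eq_abs, Real.norm_eq_abs, abs_of_nonneg measureReal_nonneg,
        abs_of_nonneg (by positivity), one_mul]
      exact hn1
    have h3 : (fun n => μ (E n)) = fun n => ENNReal.ofReal (μ.real (E n)) := by
      funext n
      rw [ofReal_measureReal]
    rw [h3, ← ENNReal.ofReal_tsum_of_nonneg (fun n => measureReal_nonneg) h1]
    exact ENNReal.ofReal_ne_top
  filter_upwards [ae_eventually_notMem hsum] with ω hω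
  filter_upwards [hω, hQ.ev A] with n hn1 hn2
  obtain ⟨h1, -⟩ := hF n hn2
  rw [hE] at hn1
  simp only [Set.mem_iInter, not_forall, mem_image] at hn1
  obtain ⟨j, ⟨σ, hσ, rfl⟩, hj⟩ := hn1
  rw [Set.mem_compl_iff, not_not] at hj
  obtain ⟨h2, -, x, hx1, hx2⟩ := h1 σ hσ
  exact ⟨n - σ, hj, by omega, x, hx1, by rw [hx2]; omega⟩

end Pool.Agent.R77.WC
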