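import Mathlib
import Pool.Agent.R77.WC.Prob
import Pool.Agent.R500.WB.Lower

set_option autoImplicit false

/-!
# Sparse random sets: the number of elements, existence; lower bounds; local conditions
-/

namespace Pool.Agent.R77.WC

open Finset MeasureTheory ProbabilityTheory Filter Topology
open Pool.Agent.R500.WB (Loc)
open scoped Nat

/-! ### The exponent -/

lemma th_pow_le {k : ℕ} (hk : 1 ≤ k) (s : ℕ) : th k ^ s ≤ Real.exp (-(s / k)) := by
  have hk0 : (0 : ℝ) < k := by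
    have : 0 < k := by omega
    exact_mod_cast this
  have h1 : th k ≤ Real.exp (-(1 / k)) := by
    have := Real.add_one_le_exp (-(1 / (k : ℝ)))
    unfold th
    linarith
  calc th k ^ s ≤ Real.exp (-(1 / k)) ^ s := pow_le_pow_left₀ (th_nonneg hk) h1 s
    _ = Real.exp (-(s / k)) := by
        rw [← Real.exp_nat_mul]
        congr 1
        ring

/-- all `k` and all numbers of terms at once -/
theorem upper {Q : ℕ → ℕ} (hQ : Moduli Q) {η : ℝ} (hη1 : η ≤ 1) {Ω : Type*} [MeasurableSpace Ω]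
    {μ : Measure Ω} [IsProbabilityMeasure μ] {R : Ω → Set ℕ}
    (hm : ∀ m, MeasurableSet {ω | m ∈ R ω}) (hi : iIndepSet (fun m : ℕ => {ω | m ∈ R ω}) μ)
    (hp : ∀ m : ℕ, 0 < m → Q m ∣ m → μ.real {ω | m ∈ R ω} = (m : ℝ) ^ (η - 1)) :
    ∀ᵐ ω ∂μ, ∀ k s : ℕ, 2 ≤ k → (∀ q, 1 ≤ q → Loc k s q) → Real.exp (-(s / k)) < η →
      Suff k (R ω) s := by
  rw [ae_all_iff]
  intro k
  rw [ae_all_iff]
  intro s
  by_cases h : 2 ≤ k ∧ (∀ q, 1 ≤ q → Loc k s q) ∧ Real.exp (-(s / k)) < η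
  · obtain ⟨h1, h2, h3⟩ := h
    have h4 := core h1 h2 hQ (lt_of_le_of_lt (th_pow_le (by omega) s) h3) hη1 one_pos hm hi
      (fun m hm0 hm1 => by rw [hp m hm0 hm1, one_mul])
    filter_upwards [h4] with ω hω _ _ _
    exact hω
  · refine Filter.Eventually.of_forall fun ω h1 h2 h3 => ?_
    exact absurd ⟨h1, h2, h3⟩ h

/-! ### The number of elements -/

/-- the number of elements of `R` in `[1, N]` -/
noncomputable def cnt (R : Set ℕ) (N : ℕ) : ℕ := (R ∩ Set.Icc 1 N).ncard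

theorem count {Q : ℕ → ℕ} {η : ℝ} {Ω : Type*} [MeasurableSpace Ω]
    {μ : Measure Ω} [IsProbabilityMeasure μ] {R : Ω → Set ℕ}
    (hm : ∀ m, MeasurableSet {ω | m ∈ R ω}) (hmem : ∀ ω, ∀ m ∈ R ω, 0 < m ∧ Q m ∣ m)
    (hp : ∀ m : ℕ, 0 < m → Q m ∣ m → μ.real {ω | m ∈ R ω} = (m : ℝ) ^ (η - 1)) (hη0 : 0 ≤ η) :
    ∀ᵐ ω ∂μ, ∀ ε : ℝ, 0 < ε → ∃ C : ℝ, ∀ N : ℕ, (cnt (R ω) N : ℝ) ≤ C * (N : ℝ) ^ (η + ε) := by
  classical
  have key : ∀ ε : ℝ, 0 < ε → ∀ᵐ ω ∂μ, ∃ C : ℝ, ∀ N : ℕ,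
      (cnt (R ω) N : ℝ) ≤ C * (N : ℝ) ^ (η + ε) := by
    intro ε hε
    obtain ⟨f, hf⟩ : ∃ f : ℕ → Ω → ENNReal, f = fun m =>
      Set.indicator {ω | m ∈ R ω} (fun _ => ENNReal.ofReal ((m : ℝ) ^ (-(η + ε)))) := ⟨_, rfl⟩
    have hfm : ∀ m, Measurable (f m) := by
      intro m
      rw [hf]
      exact measurable_const.indicator (hm m)
    have hfi : ∀ m, ∫⁻ ω, f m ω ∂μ ≤ ENNReal.ofReal ((m : ℝ) ^ (-(1 + ε))) := by
      intro m
      rw [hf]
      simp only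
      rw [lintegral_indicator (hm m), setLIntegral_const]
      by_cases h0 : 0 < m ∧ Q m ∣ m
      · have h1 : μ {ω | m ∈ R ω} = ENNReal.ofReal ((m : ℝ) ^ (η - 1)) := by
          rw [← hp m h0.1 h0.2, ofReal_measureReal]
        have hm0 : (0 : ℝ) < m := by exact_mod_cast h0.1
        rw [h1, ← ENNReal.ofReal_mul (by positivity), ← Real.rpow_add hm0]
        apply le_of_eq
        congr 2
        ring
      · have h1 : {ω | m ∈ R ω} = ∅ := by
          ext ω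
          simp only [Set.mem_ofPred_eq, Set.mem_empty_iff_false, iff_false]
          exact fun h => h0 (hmem ω m h)
        rw [h1, measure_empty, mul_zero]
        exact zero_le
    have hsum : ∑' m : ℕ, ENNReal.ofReal ((m : ℝ) ^ (-(1 + ε))) ≠ ⊤ := by
      have h1 : Summable (fun m : ℕ => (m : ℝ) ^ (-(1 + ε))) :=
        Real.summable_nat_rpow.2 (by linarith)
      rw [← ENNReal.ofReal_tsum_of_nonneg (fun m => by positivity) h1]
      exact ENNReal.ofReal_ne_top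
    have hint : ∫⁻ ω, ∑' m, f m ω ∂μ ≠ ⊤ := by
      rw [lintegral_tsum (fun m => (hfm m).aemeasurable)]
      exact ne_top_of_le_ne_top hsum (ENNReal.tsum_le_tsum hfi)
    have hae : ∀ᵐ ω ∂μ, ∑' m, f m ω < ⊤ :=
      ae_lt_top (Measurable.ennreal_tsum hfm) hint
    filter_upwards [hae] with ω hω
    refine ⟨(∑' m, f m ω).toReal, fun N => ?_⟩
    by_cases hN : N = 0
    · subst hN
      have h1 : cnt (R ω) 0 = 0 := by
        unfold cnt
        simp
      rw [h1]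
      simp only [Nat.cast_zero]
      positivity
    have hN0 : (0 : ℝ) < N := by
      have : 0 < N := by omega
      exact_mod_cast this
    obtain ⟨T, hT⟩ : ∃ T : Finset ℕ, T = (Finset.Icc 1 N).filter (fun m => m ∈ R ω) := ⟨_, rfl⟩
    have hcnt : cnt (R ω) N = T.card := by
      unfold cnt
      rw [← Set.ncard_coe_finset, hT]
      congr 1
      ext m
      simp only [Set.mem_inter_iff, Set.mem_Icc, coe_filter, Finset.mem_Icc, Set.mem_ofPred_eq]
      tauto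
    have h1 : (T.card : ENNReal) * ENNReal.ofReal ((N : ℝ) ^ (-(η + ε))) ≤ ∑' m, f m ω := by
      calc (T.card : ENNReal) * ENNReal.ofReal ((N : ℝ) ^ (-(η + ε)))
          = ∑ _m ∈ T, ENNReal.ofReal ((N : ℝ) ^ (-(η + ε))) := by
            rw [Finset.sum_const, nsmul_eq_mul]
        _ ≤ ∑ m ∈ T, f m ω := by
            refine Finset.sum_le_sum fun m hmT => ?_
            rw [hT, mem_filter, Finset.mem_Icc] at hmT
            obtain ⟨⟨h2, h3⟩, h4⟩ := hmT
            rw [hf]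
            simp only
            rw [Set.indicator_of_mem (show ω ∈ {ω | m ∈ R ω} from h4)]
            apply ENNReal.ofReal_le_ofReal
            refine Real.rpow_le_rpow_of_nonpos ?_ ?_ (by linarith)
            · have : 0 < m := by omega
              exact_mod_cast this
            · exact_mod_cast h3
        _ ≤ ∑' m, f m ω := ENNReal.sum_le_tsum T
    have h2 := ENNReal.toReal_mono hω.ne h1
    rw [ENNReal.toReal_mul, ENNReal.toReal_natCast, ENNReal.toReal_ofReal (by positivity)] at h2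
    rw [hcnt]
    rw [Real.rpow_neg hN0.le, ← div_eq_mul_inv, div_le_iff₀ (by positivity)] at h2
    exact h2
  have key2 : ∀ᵐ ω ∂μ, ∀ j : ℕ, ∃ C : ℝ, ∀ N : ℕ,
      (cnt (R ω) N : ℝ) ≤ C * (N : ℝ) ^ (η + 1 / ((j : ℝ) + 1)) := by
    rw [ae_all_iff]
    exact fun j => key _ (by positivity)
  filter_upwards [key2] with ω hω ε hε
  obtain ⟨j, hj⟩ := exists_nat_one_div_lt hε
  obtain ⟨C, hC⟩ := hω j
  refine ⟨max C 0, fun N => (hC N).trans ?_⟩
  by_cases hN : N = 0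
  · subst hN
    rw [Nat.cast_zero, Real.zero_rpow (by positivity), Real.zero_rpow (by positivity)]
    simp
  have hN1 : (1 : ℝ) ≤ N := by
    have : 1 ≤ N := by omega
    exact_mod_cast this
  refine mul_le_mul (le_max_left _ _) ?_ (by positivity) (le_max_right _ _)
  exact Real.rpow_le_rpow_of_exponent_le hN1 (by linarith)

/-! ### Lower bounds -/

/-- the local condition is necessary -/
theorem low_local {k s : ℕ} {R : Set ℕ}
    (hR : ∀ d : ℕ, 0 < d → ∃ M : ℕ, ∀ r ∈ R, M ≤ r → d ∣ r) (h : Suff k R s) :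
    ∀ q, 1 ≤ q → Loc k s q := by
  intro q hq n
  obtain ⟨M, hM⟩ := hR q hq
  obtain ⟨N, hN⟩ := eventually_atTop.1 h
  obtain ⟨r, hr, hr2, x, -, hx⟩ := hN (n + q * (N + 2 * M)) (by
    have : N + 2 * M ≤ q * (N + 2 * M) := Nat.le_mul_of_pos_left _ hq
    omega)
  have h1 : q ∣ r := by
    refine hM r hr ?_
    have : N + 2 * M ≤ q * (N + 2 * M) := Nat.le_mul_of_pos_left _ hq
    omega
  refine ⟨x, ?_⟩
  have h2 : ∑ i, x i ^ k + r ≡ n [MOD q] := by
    rw [hx]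
    have h3 : n + q * (N + 2 * M) ≡ n + 0 [MOD q] :=
      (Nat.ModEq.refl n).add ((Nat.modEq_zero_iff_dvd).2 (Dvd.intro _ rfl))
    simpa using h3
  have h3 : ∑ i, x i ^ k + r ≡ ∑ i, x i ^ k + 0 [MOD q] :=
    (Nat.ModEq.refl _).add ((Nat.modEq_zero_iff_dvd).2 h1)
  rw [add_zero] at h3
  exact h3.symm.trans h2

/-- powers of two -/
theorem low_two {m k s : ℕ} (hm : 3 ≤ m) (hk : k = 2 ^ m) (h : ∀ q, 1 ≤ q → Loc k s q) :
    4 * k ≤ s := by
  by_contra hcon
  push Not at hcon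
  have hk0 : 0 < k := by rw [hk]; positivity
  obtain ⟨ρ, hρ⟩ := h (8 * k) (by omega) (4 * k)
  have h1 : (∑ i, ρ i ^ k) % (8 * k) = 4 * k := by
    have h2 : (∑ i, ρ i ^ k) % (8 * k) = (4 * k) % (8 * k) := hρ
    rw [h2, Nat.mod_eq_of_lt (by omega)]
  exact Pool.Agent.R500.WB.obstruction hm hk (dvd_refl (8 * k)) (b := fun x => x ^ k)
    (fun x => ⟨0, by simp⟩) h1 hcon ρ rfl

/-- counting -/
theorem low_count {k s : ℕ} {R : Set ℕ} {η : ℝ} (hk : 1 ≤ k)
    (hR : ∀ ε : ℝ, 0 < ε → ∃ C : ℝ, ∀ N : ℕ, (cnt R N : ℝ) ≤ C * (N : ℝ) ^ (η + ε))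
    (h : Suff k R s) : (1 - η) * k ≤ s := by
  classical
  have hk0 : (0 : ℝ) < k := by
    have : 0 < k := by omega
    exact_mod_cast this
  by_contra hcon
  push Not at hcon
  obtain ⟨ε, hε⟩ : ∃ ε : ℝ, ε = (1 - η - s / k) / 2 := ⟨_, rfl⟩
  have hε0 : 0 < ε := by
    rw [hε]
    have : (s : ℝ) / k < 1 - η := by
      rw [div_lt_iff₀ hk0]
      exact hcon
    linarith
  obtain ⟨C, hC⟩ := hR ε hε0
  obtain ⟨N₀, hN₀⟩ := eventually_atTop.1 h
  -- the count
  have hcount : ∀ N : ℕ, 1 ≤ N → (N : ℝ) ≤ N₀ + 1 +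
      (2 * (N : ℝ) ^ (1 / (k : ℝ))) ^ s * (C * (N : ℝ) ^ (η + ε)) := by
    intro N hN1
    have hNr : (1 : ℝ) ≤ N := by exact_mod_cast hN1
    obtain ⟨X, hX⟩ : ∃ X : ℕ, X = ⌊(N : ℝ) ^ (1 / (k : ℝ))⌋₊ + 1 := ⟨_, rfl⟩
    have hX1 : (X : ℝ) ≤ 2 * (N : ℝ) ^ (1 / (k : ℝ)) := by
      rw [hX]
      push_cast
      have h1 := Nat.floor_le (show (0 : ℝ) ≤ (N : ℝ) ^ (1 / (k : ℝ)) by positivity)
      have h2 : (1 : ℝ) ≤ (N : ℝ) ^ (1 / (k : ℝ)) := Real.one_le_rpow hNr (by positivity)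
      linarith
    obtain ⟨T, hT⟩ : ∃ T : Finset ℕ, T = (Finset.Icc 1 N).filter (fun m => m ∈ R) := ⟨_, rfl⟩
    have hcnt : cnt R N = T.card := by
      unfold cnt
      rw [← Set.ncard_coe_finset, hT]
      congr 1
      ext m
      simp only [Set.mem_inter_iff, Set.mem_Icc, coe_filter, Finset.mem_Icc, Set.mem_ofPred_eq]
      tauto
    have hsub : Finset.Icc (N₀ + 1) N ⊆
        ((Fintype.piFinset (fun _ : Fin s => range X)) ×ˢ T).image
          (fun p => ∑ i, p.1 i ^ k + p.2) := by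
      intro n hn
      rw [Finset.mem_Icc] at hn
      obtain ⟨r, hr, hr2, x, hx0, hx⟩ := hN₀ n (by omega)
      rw [mem_image]
      refine ⟨(x, r), ?_, hx⟩
      rw [mem_product]
      refine ⟨?_, ?_⟩
      · rw [Fintype.mem_piFinset]
        intro i
        rw [mem_range, hX, Nat.lt_succ_iff]
        apply Nat.le_floor
        have h1 : x i ^ k ≤ N := by
          have h2 : x i ^ k ≤ ∑ i, x i ^ k :=
            Finset.single_le_sum (f := fun i => x i ^ k) (fun _ _ => Nat.zero_le _) (mem_univ i)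
          omega
        have h2 : ((x i : ℕ) : ℝ) ^ k ≤ N := by exact_mod_cast h1
        calc ((x i : ℕ) : ℝ) = (((x i : ℕ) : ℝ) ^ k) ^ (1 / (k : ℝ)) := by
              rw [one_div, Real.pow_rpow_inv_natCast (Nat.cast_nonneg _) (by omega)]
          _ ≤ (N : ℝ) ^ (1 / (k : ℝ)) :=
              Real.rpow_le_rpow (by positivity) h2 (by positivity)
      · rw [hT, mem_filter, Finset.mem_Icc]
        exact ⟨⟨by omega, by omega⟩, hr⟩
    have h1 := (Finset.card_le_card hsub).trans Finset.card_image_le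
    rw [Nat.card_Icc, card_product, Fintype.card_piFinset_const, card_range] at h1
    rw [← hcnt] at h1
    have h2 : (N : ℝ) + 1 ≤ N₀ + 1 + (X : ℝ) ^ s * (cnt R N : ℝ) := by
      have h3 : N + 1 ≤ N₀ + 1 + X ^ s * cnt R N := by omega
      exact_mod_cast h3
    have h3 : (X : ℝ) ^ s * (cnt R N : ℝ) ≤
        (2 * (N : ℝ) ^ (1 / (k : ℝ))) ^ s * (C * (N : ℝ) ^ (η + ε)) := by
      refine mul_le_mul (pow_le_pow_left₀ (Nat.cast_nonneg _) hX1 s) (hC N) (Nat.cast_nonneg _)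
        (by positivity)
    linarith
  -- the comparison
  have hlim : Tendsto (fun N : ℕ => (N : ℝ) ^ ε) atTop atTop :=
    (tendsto_rpow_atTop hε0).comp tendsto_natCast_atTop_atTop
  obtain ⟨N, hN1, hN2, hN3⟩ := ((hlim.eventually_gt_atTop (2 ^ s * C * 2 + 1)).and
    ((eventually_ge_atTop 1).and (eventually_ge_atTop (2 * N₀ + 2)))).exists
  have h1 := hcount N hN2
  have hN0 : (0 : ℝ) < N := by
    have : 0 < N := by omega
    exact_mod_cast this
  have hN3' : (2 * (N₀ : ℝ) + 2) ≤ N := by exact_mod_cast hN3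
  have h2 : (2 * (N : ℝ) ^ (1 / (k : ℝ))) ^ s * (C * (N : ℝ) ^ (η + ε)) =
      2 ^ s * C * (N : ℝ) ^ (1 - ε) := by
    rw [mul_pow, ← Real.rpow_natCast ((N : ℝ) ^ (1 / (k : ℝ))), ← Real.rpow_mul hN0.le]
    have h3 : (N : ℝ) ^ (1 - ε) = (N : ℝ) ^ (1 / (k : ℝ) * s) * (N : ℝ) ^ (η + ε) := by
      rw [← Real.rpow_add hN0]
      congr 1
      rw [hε]
      field_simp
      ring
    rw [h3]
    ring
  rw [h2] at h1
  have h3 : (N : ℝ) = (N : ℝ) ^ (1 - ε) * (N : ℝ) ^ ε := by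
    rw [← Real.rpow_add hN0]
    simp
  have h4 : (0 : ℝ) < (N : ℝ) ^ (1 - ε) := by positivity
  nlinarith

/-! ### Local conditions -/

/-- `2 k` terms suffice locally if `k` is not `2 ^ a` with `a ≥ 2` -/
theorem loc_two {k : ℕ} (hk : 0 < k) (hk2 : ∀ a, 2 ≤ a → k ≠ 2 ^ a) :
    ∀ q, 1 ≤ q → Loc k (2 * k) q := by
  intro q hq
  by_cases h1 : k = 1
  · subst h1
    intro n
    refine ⟨![n, 0], ?_⟩
    simp [Fin.sum_univ_two, Nat.ModEq]
  by_cases h2 : k = 2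
  · subst h2
    intro n
    obtain ⟨a, b, c, d, h⟩ := Nat.sum_four_squares n
    refine ⟨![a, b, c, d], ?_⟩
    rw [← h]
    simp [Fin.sum_univ_four, Nat.ModEq]
  refine Loc.of_prime_pow (Loc.prime_pow hk le_rfl fun e => ?_) hq
  obtain ⟨c, hc⟩ := Nat.gcd_dvd_left k (2 ^ e)
  obtain ⟨j, -, hj⟩ := (Nat.dvd_prime_pow Nat.prime_two).1 (Nat.gcd_dvd_right k (2 ^ e))
  have hg : 0 < Nat.gcd k (2 ^ e) := Nat.gcd_pos_of_pos_left _ hk
  have hc0 : c ≠ 0 := by
    rintro rfl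
    rw [mul_zero] at hc
    omega
  have hc1 : c ≠ 1 := by
    rintro rfl
    rw [mul_one, hj] at hc
    have hj2 : ¬ 2 ≤ j := fun h => hk2 j h hc
    have : j = 0 ∨ j = 1 := by omega
    rcases this with rfl | rfl
    · exact h1 (by simpa using hc)
    · exact h2 (by simpa using hc)
  have hc2 : c ≠ 2 := by
    rintro rfl
    rw [hj, ← pow_succ] at hc
    have hj2 : ¬ 2 ≤ j + 1 := fun h => hk2 (j + 1) h hc
    have : j = 0 := by omega
    subst this
    exact h2 (by simpa using hc)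
  have h3 : Nat.gcd k (2 ^ e) * 3 ≤ k := by
    calc Nat.gcd k (2 ^ e) * 3 ≤ Nat.gcd k (2 ^ e) * c := Nat.mul_le_mul_left _ (by omega)
      _ = k := hc.symm
  omega

theorem loc_four {k s : ℕ} (hk : 0 < k) (hs : 4 * k ≤ s) : ∀ q, 1 ≤ q → Loc k s q :=
  fun _ hq => (Loc.four hk hq).mono hk hs

end Pool.Agent.R77.WC
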