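import Mathlib
import Pool.Agent.R77.WC.Gen

set_option autoImplicit false

/-!
# Sparse random sets: existence
-/

namespace Pool.Agent.R77.WC

open Finset MeasureTheory ProbabilityTheory Filter Topology
open scoped Nat

/-- `(log₂ log₂ m)!` -/
def Q0 (m : ℕ) : ℕ := (Nat.log 2 (Nat.log 2 m))!

lemma Q0_all (d : ℕ) (hd : 0 < d) : ∀ᶠ m : ℕ in atTop, d ∣ Q0 m := by
  filter_upwards [eventually_ge_atTop (2 ^ (2 ^ d))] with m hm
  unfold Q0
  apply Nat.dvd_factorial hd
  have h1 : 2 ^ d ≤ Nat.log 2 m := by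
    have := Nat.log_mono_right (b := 2) hm
    rwa [Nat.log_pow (by norm_num)] at this
  have h2 := Nat.log_mono_right (b := 2) h1
  rwa [Nat.log_pow (by norm_num)] at h2

lemma Q0_moduli : Moduli Q0 := by
  refine ⟨fun m => Nat.factorial_pos _, fun m m' h => ?_, fun ε hε => ?_⟩
  · exact Nat.factorial_dvd_factorial (Nat.log_mono_right (Nat.log_mono_right h))
  · -- `L! ≤ 2 ^ (L ^ 2) ≤ m ^ ε`
    have h1 : Tendsto (fun L : ℕ => (L : ℝ) ^ 2 / 2 ^ L) atTop (𝓝 0) := by
      have := tendsto_pow_const_div_const_pow_of_one_lt 2 (show (1 : ℝ) < 2 by norm_num)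
      exact this
    have h2 : Tendsto (fun m : ℕ => Nat.log 2 (Nat.log 2 m)) atTop atTop := by
      refine tendsto_atTop_mono' atTop (f₁ := fun m => Nat.log 2 (Nat.log 2 m))
        (Eventually.of_forall fun m => le_rfl) ?_
      rw [tendsto_atTop]
      intro b
      filter_upwards [eventually_ge_atTop (2 ^ (2 ^ b))] with m hm
      have h1 : 2 ^ b ≤ Nat.log 2 m := by
        have := Nat.log_mono_right (b := 2) hm
        rwa [Nat.log_pow (by norm_num)] at this
      have h2 := Nat.log_mono_right (b := 2) h1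
      rwa [Nat.log_pow (by norm_num)] at h2
    filter_upwards [(h1.comp h2).eventually (Iio_mem_nhds hε), eventually_ge_atTop 4] with m hm hm4
    simp only [Function.comp_apply] at hm
    obtain ⟨L, hL⟩ : ∃ L, L = Nat.log 2 (Nat.log 2 m) := ⟨_, rfl⟩
    rw [← hL] at hm
    have h3 : (L : ℝ) ^ 2 < ε * 2 ^ L := by
      rwa [div_lt_iff₀ (by positivity)] at hm
    have h4 : 2 ^ L ≤ Nat.log 2 m := by
      rw [hL]
      apply Nat.pow_log_le_self
      have : 2 ≤ Nat.log 2 m := by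
        have := Nat.log_mono_right (b := 2) hm4
        have h5 : Nat.log 2 4 = 2 := by
          rw [show (4 : ℕ) = 2 ^ 2 by norm_num, Nat.log_pow (by norm_num)]
        omega
      omega
    have h5 : 2 ^ Nat.log 2 m ≤ m := Nat.pow_log_le_self 2 (by omega)
    have h6 : (Q0 m : ℝ) ≤ (2 : ℝ) ^ ((L : ℝ) ^ 2) := by
      have h7 : Q0 m ≤ 2 ^ (L * L) := by
        unfold Q0
        rw [← hL]
        calc L ! ≤ L ^ L := Nat.factorial_le_pow L
          _ ≤ (2 ^ L) ^ L := Nat.pow_le_pow_left (Nat.lt_two_pow_self).le L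
          _ = 2 ^ (L * L) := by rw [← pow_mul]
      have h8 : (2 : ℝ) ^ ((L : ℝ) ^ 2) = (2 : ℝ) ^ (L * L) := by
        rw [← Real.rpow_natCast (2 : ℝ) (L * L)]
        congr 1
        push_cast
        ring
      rw [h8]
      exact_mod_cast h7
    calc (Q0 m : ℝ) ≤ (2 : ℝ) ^ ((L : ℝ) ^ 2) := h6
      _ ≤ (2 : ℝ) ^ (ε * (Nat.log 2 m : ℝ)) := by
          refine Real.rpow_le_rpow_of_exponent_le (by norm_num) (h3.le.trans ?_)
          refine mul_le_mul_of_nonneg_left ?_ hε.le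
          exact_mod_cast h4
      _ = ((2 : ℝ) ^ (Nat.log 2 m : ℝ)) ^ ε := by
          rw [← Real.rpow_mul (by norm_num)]
          congr 1
          ring
      _ ≤ (m : ℝ) ^ ε := by
          refine Real.rpow_le_rpow (by positivity) ?_ hε.le
          rw [Real.rpow_natCast]
          exact_mod_cast h5

/-- the law of a coin -/
noncomputable def bern (p : ℝ) : Measure Bool :=
  ENNReal.ofReal p • Measure.dirac true + ENNReal.ofReal (1 - p) • Measure.dirac false

lemma bern_true (p : ℝ) : bern p {true} = ENNReal.ofReal p := by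
  unfold bern
  simp

lemma bern_prob {p : ℝ} (hp0 : 0 ≤ p) (hp1 : p ≤ 1) : IsProbabilityMeasure (bern p) := by
  refine ⟨?_⟩
  unfold bern
  rw [Measure.add_apply, Measure.smul_apply, Measure.smul_apply, measure_univ, measure_univ,
    smul_eq_mul, smul_eq_mul, mul_one, mul_one, ← ENNReal.ofReal_add hp0 (by linarith)]
  simp

/-- **Existence of the random sets.** -/
theorem exists_sparse (Q : ℕ → ℕ) {η : ℝ} (hη1 : η ≤ 1) :
    ∃ (Ω : Type) (_ : MeasurableSpace Ω) (μ : Measure Ω) (_ : IsProbabilityMeasure μ)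
      (R : Ω → Set ℕ), (∀ m, MeasurableSet {ω | m ∈ R ω}) ∧
      iIndepSet (fun m : ℕ => {ω | m ∈ R ω}) μ ∧
      (∀ ω, ∀ m ∈ R ω, 0 < m ∧ Q m ∣ m) ∧
      (∀ m : ℕ, 0 < m → Q m ∣ m → μ.real {ω | m ∈ R ω} = (m : ℝ) ^ (η - 1)) := by
  classical
  obtain ⟨p, hp⟩ : ∃ p : ℕ → ℝ, p = fun m : ℕ => if 0 < m then (m : ℝ) ^ (η - 1) else 0 := ⟨_, rfl⟩
  have hp0 : ∀ m, 0 ≤ p m := by
    intro m
    rw [hp]
    simp only
    split_ifs <;> positivity
  have hp1 : ∀ m, p m ≤ 1 := by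
    intro m
    rw [hp]
    simp only
    split_ifs with h
    · have h1 : (1 : ℝ) ≤ m := by exact_mod_cast h
      exact Real.rpow_le_one_of_one_le_of_nonpos h1 (by linarith)
    · norm_num
  have : ∀ m, IsProbabilityMeasure (bern (p m)) := fun m => bern_prob (hp0 m) (hp1 m)
  obtain ⟨Ω, mΩ, μ, X, hXm, hXl, hXi, hμ⟩ := exists_hasLaw_indepFun (fun _ : ℕ => Bool)
    (fun m => bern (p m))
  obtain ⟨B, hB⟩ : ∃ B : ℕ → Set Bool, B = fun m => if 0 < m ∧ Q m ∣ m then {true} else ∅ :=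
    ⟨_, rfl⟩
  have hset : ∀ m, {ω | 0 < m ∧ Q m ∣ m ∧ X m ω = true} = X m ⁻¹' (B m) := by
    intro m
    ext ω
    rw [hB]
    simp only [Set.mem_ofPred_eq, Set.mem_preimage]
    split_ifs with h
    · simp [h.1, h.2]
    · simp only [Set.mem_empty_iff_false, iff_false]
      exact fun h1 => h ⟨h1.1, h1.2.1⟩
  have hmeas : ∀ m, MeasurableSet {ω | 0 < m ∧ Q m ∣ m ∧ X m ω = true} := by
    intro m
    rw [hset m]
    exact hXm m (MeasurableSet.of_discrete)
  refine ⟨Ω, mΩ, μ, hμ, fun ω => {m | 0 < m ∧ Q m ∣ m ∧ X m ω = true}, hmeas, ?_, ?_, ?_⟩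
  · show iIndepSet (fun m => {ω | 0 < m ∧ Q m ∣ m ∧ X m ω = true}) μ
    rw [iIndepSet_iff_meas_biInter hmeas]
    intro S
    have h1 := (iIndepFun_iff_measure_inter_preimage_eq_mul.1 hXi) S (sets := B)
      (fun m _ => MeasurableSet.of_discrete)
    simp only [hset]
    exact h1
  · intro ω m hm
    exact ⟨hm.1, hm.2.1⟩
  · intro m hm0 hm1
    have h1 : {ω | m ∈ {m | 0 < m ∧ Q m ∣ m ∧ X m ω = true}} = X m ⁻¹' {true} := by
      have h2 := hset m
      rw [hB] at h2
      simp only [hm0, hm1, and_self, if_true] at h2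
      have h3 : {ω | m ∈ {m | 0 < m ∧ Q m ∣ m ∧ X m ω = true}} =
          {ω | 0 < m ∧ Q m ∣ m ∧ X m ω = true} := rfl
      rw [h3]
      simpa [hm0, hm1] using h2
    rw [h1, measureReal_def, ← Measure.map_apply (hXm m) (measurableSet_singleton _),
      (hXl m).map_eq, bern_true, ENNReal.toReal_ofReal (hp0 m), hp]
    simp [hm0]

end Pool.Agent.R77.WC
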