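import Mathlib
import Pool.Agent.R77.WC.Exist

set_option autoImplicit false

/-!
# Sparse random sets: everything together
-/

namespace Pool.Agent.R77.WC

open Finset MeasureTheory ProbabilityTheory Filter Topology
open Pool.Agent.R500.WB (Loc)

/-- the properties which almost all the random sets have -/
structure Good (η : ℝ) (R : Set ℕ) : Prop where
  null : ∀ d : ℕ, 0 < d → {r ∈ R | ¬ d ∣ r}.Finite
  count : ∀ ε : ℝ, 0 < ε → ∀ᶠ N : ℕ in atTop, ((R ∩ Set.Icc 1 N).ncard : ℝ) ≤ (N : ℝ) ^ (η + ε)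
  up : ∀ k s : ℕ, 2 ≤ k → (∀ q, 1 ≤ q → Loc k s q) → Real.exp (-(s / k)) < η → Suff k R s
  loc : ∀ k s : ℕ, Suff k R s → ∀ q, 1 ≤ q → Loc k s q
  low : ∀ k s : ℕ, 1 ≤ k → Suff k R s → (1 - η) * k ≤ s

theorem good {Q : ℕ → ℕ} (hQ : Moduli Q) (hall : ∀ d, 0 < d → ∀ᶠ m : ℕ in atTop, d ∣ Q m)
    {η : ℝ} (hη0 : 0 ≤ η) (hη1 : η ≤ 1) {Ω : Type*} [MeasurableSpace Ω]
    {μ : Measure Ω} [IsProbabilityMeasure μ] {R : Ω → Set ℕ}
    (hm : ∀ m, MeasurableSet {ω | m ∈ R ω}) (hi : iIndepSet (fun m : ℕ => {ω | m ∈ R ω}) μ)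
    (hmem : ∀ ω, ∀ m ∈ R ω, 0 < m ∧ Q m ∣ m)
    (hp : ∀ m : ℕ, 0 < m → Q m ∣ m → μ.real {ω | m ∈ R ω} = (m : ℝ) ^ (η - 1)) :
    ∀ᵐ ω ∂μ, Good η (R ω) := by
  filter_upwards [upper hQ hη1 hm hi hp, Pool.Agent.R77.WC.count (Q := Q) hm hmem hp hη0]
    with ω h1 h2
  have hR : ∀ d : ℕ, 0 < d → ∃ M : ℕ, ∀ r ∈ R ω, M ≤ r → d ∣ r := by
    intro d hd
    obtain ⟨M, hM⟩ := eventually_atTop.1 (hall d hd)
    exact ⟨M, fun r hr hr2 => (hM r hr2).trans (hmem ω r hr).2⟩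
  refine ⟨fun d hd => ?_, fun ε hε => ?_, h1, fun k s h => low_local hR h,
    fun k s hk h => low_count hk h2 h⟩
  · obtain ⟨M, hM⟩ := hR d hd
    refine (Set.finite_lt_nat M).subset ?_
    intro r hr
    by_contra hcon
    exact hr.2 (hM r hr.1 (not_lt.1 hcon))
  · obtain ⟨C, hC⟩ := h2 (ε / 2) (by linarith)
    have hlim : Tendsto (fun N : ℕ => (N : ℝ) ^ (ε / 2)) atTop atTop :=
      (tendsto_rpow_atTop (by linarith)).comp tendsto_natCast_atTop_atTop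
    filter_upwards [hlim.eventually_ge_atTop C, eventually_gt_atTop 0] with N hN hN0
    have hN1 : (0 : ℝ) < N := by exact_mod_cast hN0
    have h3 := hC N
    unfold cnt at h3
    refine h3.trans ?_
    have h4 : (N : ℝ) ^ (η + ε) = (N : ℝ) ^ (ε / 2) * (N : ℝ) ^ (η + ε / 2) := by
      rw [← Real.rpow_add hN1]
      congr 1
      ring
    rw [h4]
    exact mul_le_mul_of_nonneg_right hN (by positivity)

lemma exp_lt {k s : ℕ} (hk : 1 ≤ k) {η : ℝ} (hη : 0 < η) (h : (k : ℝ) * Real.log (1 / η) < s) :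
    Real.exp (-(s / k)) < η := by
  have hk0 : (0 : ℝ) < k := by
    have : 0 < k := by omega
    exact_mod_cast this
  have h1 : Real.log (1 / η) < s / k := by
    rw [lt_div_iff₀ hk0]
    linarith
  rw [one_div, Real.log_inv] at h1
  calc Real.exp (-(s / k)) < Real.exp (Real.log η) := Real.exp_lt_exp.2 (by linarith)
    _ = η := Real.exp_log hη

lemma exp_mul {k c : ℕ} (hk : 1 ≤ k) : Real.exp (-(((c * k : ℕ) : ℝ) / k)) = Real.exp (-c) := by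
  have hk0 : (k : ℝ) ≠ 0 := by
    have : 0 < k := by omega
    exact_mod_cast this.ne'
  push_cast
  rw [mul_div_assoc, div_self hk0, mul_one]

/-- `2 k` powers -/
theorem Good.two {η : ℝ} {R : Set ℕ} (h : Good η R) (hη : Real.exp (-2) < η) {k : ℕ} (hk : 2 ≤ k)
    (hk2 : ∀ m, 2 ≤ m → k ≠ 2 ^ m) : Suff k R (2 * k) := by
  refine h.up k (2 * k) hk (loc_two (by omega) hk2) ?_
  rw [exp_mul (by omega)]
  exact_mod_cast hη

/-- `4 k` powers -/
theorem Good.four {η : ℝ} {R : Set ℕ} (h : Good η R) (hη : Real.exp (-4) < η) {k : ℕ}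
    (hk : 2 ≤ k) : Suff k R (4 * k) := by
  refine h.up k (4 * k) hk (loc_four (by omega) le_rfl) ?_
  rw [exp_mul (by omega)]
  exact_mod_cast hη

theorem Good.exact {η : ℝ} {R : Set ℕ} (h : Good η R) (hη : Real.exp (-4) < η) {k m : ℕ}
    (hm : 3 ≤ m) (hk : k = 2 ^ m) : IsLeast {s | Suff k R s} (4 * k) := by
  have hk2 : 2 ≤ k := by
    rw [hk]
    calc 2 = 2 ^ 1 := by norm_num
      _ ≤ 2 ^ m := Nat.pow_le_pow_right (by norm_num) (by omega)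
  exact ⟨h.four hη hk2, fun s hs => low_two hm hk (h.loc k s hs)⟩

lemma num : (10 : ℝ) ^ 43 < Real.exp (199 / 2) := by
  have h1 := Real.exp_one_gt_d9
  have h2 : Real.exp (199 / 2) ^ 2 = Real.exp 1 ^ 199 := by
    rw [← Real.exp_nat_mul, ← Real.exp_nat_mul]
    norm_num
  have h3 : (2.718 : ℝ) ^ 199 ≤ Real.exp 1 ^ 199 :=
    pow_le_pow_left₀ (by norm_num) (by linarith) 199
  have h4 : ((10 : ℝ) ^ 43) ^ 2 < (2.718 : ℝ) ^ 199 := by norm_num
  have h5 : ((10 : ℝ) ^ 43) ^ 2 < Real.exp (199 / 2) ^ 2 := by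
    rw [h2]
    exact h4.trans_le h3
  exact lt_of_pow_lt_pow_left₀ 2 (Real.exp_pos _).le h5

/-- `100 k - 1` powers -/
theorem Good.hundred {η : ℝ} {R : Set ℕ} (h : Good η R) (hη : 1 / 10 ^ 43 ≤ η) {k : ℕ}
    (hk : 2 ≤ k) : Suff k R (100 * k - 1) := by
  refine h.up k (100 * k - 1) hk (loc_four (by omega) (by omega)) (lt_of_lt_of_le ?_ hη)
  have hk0 : (2 : ℝ) ≤ k := by exact_mod_cast hk
  have h1 : (199 : ℝ) / 2 ≤ ((100 * k - 1 : ℕ) : ℝ) / k := by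
    rw [Nat.cast_sub (by omega), le_div_iff₀ (by linarith)]
    push_cast
    linarith
  calc Real.exp (-(((100 * k - 1 : ℕ) : ℝ) / k)) ≤ Real.exp (-(199 / 2)) :=
        Real.exp_le_exp.2 (by linarith)
    _ < 1 / 10 ^ 43 := by
        rw [Real.exp_neg, ← one_div]
        exact one_div_lt_one_div_of_lt (by positivity) num

/-- the order of magnitude -/
theorem Good.order {η : ℝ} {R : Set ℕ} (h : Good η R) (hη : 0 < η) {k : ℕ} (hk : 2 ≤ k) :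
    ∃ g G : ℕ, IsLeast {s | ∀ q, 1 ≤ q → Loc k s q} g ∧ g ≤ 4 * k ∧
      IsLeast {s | Suff k R s} G ∧ g ≤ G ∧ (1 - η) * k ≤ G ∧
      G ≤ max g (⌊(k : ℝ) * Real.log (1 / η)⌋₊ + 1) := by
  classical
  have h1 : ∃ s, ∀ q, 1 ≤ q → Loc k s q := ⟨4 * k, loc_four (by omega) le_rfl⟩
  obtain ⟨g, hg⟩ : ∃ g, IsLeast {s | ∀ q, 1 ≤ q → Loc k s q} g :=
    ⟨Nat.find h1, Nat.find_spec h1, fun s hs => Nat.find_min' h1 hs⟩
  obtain ⟨t, ht⟩ : ∃ t, t = max g (⌊(k : ℝ) * Real.log (1 / η)⌋₊ + 1) := ⟨_, rfl⟩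
  have h2 : Suff k R t := by
    refine h.up k t hk (fun q hq => (hg.1 q hq).mono (by omega) (by rw [ht]; exact le_max_left _ _))
      (exp_lt (by omega) hη ?_)
    have h3 := Nat.lt_floor_add_one ((k : ℝ) * Real.log (1 / η))
    have h4 : ((⌊(k : ℝ) * Real.log (1 / η)⌋₊ + 1 : ℕ) : ℝ) ≤ t := by
      rw [ht]
      exact_mod_cast le_max_right _ _
    push_cast at h4
    linarith
  have h3 : ∃ s, Suff k R s := ⟨t, h2⟩
  refine ⟨g, Nat.find h3, hg, hg.2 (loc_four (by omega) le_rfl),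
    ⟨Nat.find_spec h3, fun s hs => Nat.find_min' h3 hs⟩, hg.2 (h.loc k _ (Nat.find_spec h3)),
    h.low k _ (by omega) (Nat.find_spec h3), ?_⟩
  rw [← ht]
  exact Nat.find_min' h3 h2

end Pool.Agent.R77.WC
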